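import Mathlib

/-!
Large moduli `l ^ w - 2`, growth of coordinates, and integers as quotients modulo `T ^ w - 2`.
-/

namespace Pool.Agent.Lib.MP_db697d_lc.Exp

open Finset

theorem big {K : Type} [Field K] [NumberField K] {l β : K} (hl : IsIntegral ℤ l) (h0 : l ≠ 0)
    (hr : ∀ k : ℕ, 0 < k → l ^ k ≠ 1) (hβ : β ≠ 0) (E : ℕ) : ∃ L : ℕ, ∀ (w : ℕ) (m : ℤ) (γ : K),
      IsIntegral ℤ γ → m * β = (l ^ (L * (w + 1)) - 2) * γ → |m| ≤ E ^ (w + 1) → m = 0 := by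
  classical
  obtain ⟨σ0, hσ0⟩ : ∃ σ : K →+* ℂ, 1 < ‖σ l‖ := by
    by_contra h
    push Not at h
    obtain ⟨k, hk, e⟩ := NumberField.Embeddings.pow_eq_one_of_norm_le_one K ℂ h0 hl h
    exact hr k hk e
  have h1 : ∀ γ : K, IsIntegral ℤ γ → γ ≠ 0 → 1 ≤ ∏ σ : K →ₐ[ℚ] ℂ, ‖σ γ‖ := fun γ hγ hγ0 => by
    let b : NumberField.RingOfIntegers K := ⟨γ, hγ⟩
    have hb : b ≠ 0 := fun e => hγ0 (congrArg Subtype.val e)
    have h1 := congrArg norm (Algebra.norm_eq_prod_embeddings ℚ ℂ (b : K))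
    rw [norm_prod, ← Algebra.coe_norm_int] at h1
    refine le_of_le_of_eq ?_ h1
    have := Int.one_le_abs (Algebra.norm_ne_zero_iff (R := ℤ).mpr hb)
    simp only [map_intCast, Complex.norm_intCast]
    exact_mod_cast this
  set d := Fintype.card (K →ₐ[ℚ] ℂ)
  set P := ∏ σ : K →ₐ[ℚ] ℂ, ‖σ β‖ with hP
  have hP0 : 0 ≤ P := prod_nonneg fun _ _ => norm_nonneg _
  set X : ℝ := (E + 1) ^ d with hX
  have hX1 : 1 ≤ X := one_le_pow₀ (by have : (0 : ℝ) ≤ E := Nat.cast_nonneg E; linarith)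
  obtain ⟨L, hL⟩ : ∃ L : ℕ, ∀ σ : K →ₐ[ℚ] ℂ, 1 < ‖σ l‖ → 3 * (P + 1) * X ≤ ‖σ l‖ ^ L := by
    refine (Filter.eventually_all.2 fun σ => ?_ : ∀ᶠ L : ℕ in Filter.atTop, _).exists
    by_cases h : 1 < ‖σ l‖
    · filter_upwards [(tendsto_pow_atTop_atTop_of_one_lt h).eventually_ge_atTop
        (3 * (P + 1) * X)] with L hL _ using hL
    · exact Filter.Eventually.of_forall fun _ h' => absurd h' h
  refine ⟨L, fun w m γ hγ e hm => by_contra fun hm0 => ?_⟩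
  have hγ0 : γ ≠ 0 := by
    rintro rfl
    exact mul_ne_zero (Int.cast_ne_zero.2 hm0) hβ (by rw [e, mul_zero])
  have hXw : 1 ≤ X ^ (w + 1) := one_le_pow₀ hX1
  have h2 : ∀ σ : K →ₐ[ℚ] ℂ, ‖σ l‖ ^ (L * (w + 1)) - 2 ≤ ‖σ (l ^ (L * (w + 1)) - 2)‖ ∧
      2 - ‖σ l‖ ^ (L * (w + 1)) ≤ ‖σ (l ^ (L * (w + 1)) - 2)‖ := fun σ => by
    have := abs_norm_sub_norm_le (σ l ^ (L * (w + 1))) 2
    rw [norm_pow, Complex.norm_ofNat, abs_le] at this
    rw [map_sub, map_pow, map_ofNat]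
    constructor <;> linarith [this.1, this.2]
  have h3 : ∀ σ : K →ₐ[ℚ] ℂ, 1 < ‖σ l‖ →
      P * X ^ (w + 1) + 1 ≤ ‖σ (l ^ (L * (w + 1)) - 2)‖ := fun σ h => by
    refine le_trans ?_ (h2 σ).1
    have h4 : (3 * (P + 1) * X) ^ (w + 1) ≤ ‖σ l‖ ^ (L * (w + 1)) := by
      rw [pow_mul]
      exact pow_le_pow_left₀ (by positivity) (hL σ h) _
    have h5 : 3 * (P + 1) ≤ (3 * (P + 1)) ^ (w + 1) := le_self_pow₀ (by linarith) (by omega)
    rw [mul_pow] at h4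
    nlinarith
  have h4 : ∀ σ : K →ₐ[ℚ] ℂ, 1 ≤ ‖σ (l ^ (L * (w + 1)) - 2)‖ := fun σ => by
    by_cases h : 1 < ‖σ l‖
    · refine le_trans ?_ (h3 σ h)
      nlinarith
    · have := pow_le_one₀ (n := L * (w + 1)) (norm_nonneg (σ l)) (not_lt.1 h)
      linarith [(h2 σ).2]
  have h5 : P * X ^ (w + 1) + 1 ≤ ∏ σ : K →ₐ[ℚ] ℂ, ‖σ (l ^ (L * (w + 1)) - 2)‖ := by
    refine (h3 σ0.toRatAlgHom hσ0).trans ?_
    rw [← mul_prod_erase univ _ (mem_univ σ0.toRatAlgHom)]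
    refine le_mul_of_one_le_right (norm_nonneg _) ?_
    exact prod_induction _ (1 ≤ ·) (fun _ _ => one_le_mul_of_one_le_of_one_le) le_rfl
      fun σ _ => h4 σ
  have h6 : (|m| : ℝ) ^ d * P = (∏ σ : K →ₐ[ℚ] ℂ, ‖σ (l ^ (L * (w + 1)) - 2)‖) *
      ∏ σ : K →ₐ[ℚ] ℂ, ‖σ γ‖ := by
    rw [← prod_mul_distrib, hP, show (|m| : ℝ) ^ d = ∏ _σ : K →ₐ[ℚ] ℂ, (|m| : ℝ) by simp [d],
      ← prod_mul_distrib]
    refine prod_congr rfl fun σ _ => ?_
    rw [← norm_mul, ← map_mul, ← e, map_mul, norm_mul, map_intCast, Complex.norm_intCast]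
  have h7 : (|m| : ℝ) ^ d ≤ X ^ (w + 1) := by
    rw [hX, ← pow_mul, mul_comm, pow_mul]
    refine pow_le_pow_left₀ (abs_nonneg _) ?_ _
    have : (|m| : ℝ) ≤ (E : ℝ) ^ (w + 1) := by exact_mod_cast hm
    exact this.trans (pow_le_pow_left₀ (Nat.cast_nonneg E) (by linarith) _)
  have h8 := h1 γ hγ hγ0
  have h9 := mul_le_mul_of_nonneg_right h7 hP0
  have h10 := le_mul_of_one_le_right
    (prod_nonneg fun (σ : K →ₐ[ℚ] ℂ) (_ : σ ∈ univ) => norm_nonneg (σ (l ^ (L * (w + 1)) - 2))) h8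
  rw [← h6] at h10
  linarith

variable {A : Type} [AddCommGroup A] [Module.Finite ℤ A]

theorem growth (T : Module.End ℤ A) (f : A →ₗ[ℤ] ℤ) (v : A) :
    ∃ E : ℕ, ∀ w : ℕ, |f ((T ^ w) v)| ≤ E ^ (w + 1) := by
  obtain ⟨s, hs⟩ := Module.Finite.fg_top (R := ℤ) (M := A)
  have h1 : ∀ x : A, ∃ C : ℕ, ∀ f : A →ₗ[ℤ] ℤ, |f x| ≤ C * ∑ u ∈ s, |f u| := fun x => by
    have hx : x ∈ Submodule.span ℤ (s : Set A) := hs ▸ Submodule.mem_top
    induction hx using Submodule.span_induction with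
    | mem x hx =>
      exact ⟨1, fun f => by
        simpa using single_le_sum (f := fun u => |f u|) (fun _ _ => abs_nonneg _) hx⟩
    | zero => exact ⟨0, by simp⟩
    | add x y _ _ hx hy =>
      obtain ⟨C, hC⟩ := hx
      obtain ⟨D, hD⟩ := hy
      refine ⟨C + D, fun f => ?_⟩
      rw [map_add, Nat.cast_add, add_mul]
      exact (abs_add_le _ _).trans (add_le_add (hC f) (hD f))
    | smul a x _ hx =>
      obtain ⟨C, hC⟩ := hx
      refine ⟨a.natAbs * C, fun f => ?_⟩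
      rw [map_smul, smul_eq_mul, abs_mul, Nat.cast_mul, Int.natCast_natAbs, mul_assoc]
      exact mul_le_mul_of_nonneg_left (hC f) (abs_nonneg a)
  choose C hC using h1
  have h2 : ∀ w : ℕ, ∑ u ∈ s, |f ((T ^ w) u)| ≤
      ((∑ u ∈ s, C (T u) : ℕ) : ℤ) ^ w * ∑ u ∈ s, |f u| := fun w => by
    induction w with
    | zero => simp
    | succ w ih =>
      calc _ ≤ ∑ u ∈ s, (C (T u) : ℤ) * ∑ u ∈ s, |f ((T ^ w) u)| :=
            sum_le_sum fun u _ => by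
              rw [pow_succ]
              exact hC (T u) (f ∘ₗ (T ^ w))
        _ = ((∑ u ∈ s, C (T u) : ℕ) : ℤ) * ∑ u ∈ s, |f ((T ^ w) u)| := by
            rw [← sum_mul, Nat.cast_sum]
        _ ≤ _ := by
            rw [pow_succ', mul_assoc]
            exact mul_le_mul_of_nonneg_left ih (Nat.cast_nonneg _)
  obtain ⟨N, hN⟩ : ∃ N : ℕ, ∑ u ∈ s, |f u| = N :=
    ⟨_, (Int.toNat_of_nonneg (sum_nonneg fun _ _ => abs_nonneg _)).symm⟩
  refine ⟨C v * N + ∑ u ∈ s, C (T u), fun w => (hC v (f ∘ₗ (T ^ w))).trans ?_⟩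
  refine (mul_le_mul_of_nonneg_left (h2 w) (Nat.cast_nonneg _)).trans ?_
  rw [hN, pow_succ, mul_left_comm, ← Nat.cast_mul]
  generalize ∑ u ∈ s, C (T u) = a
  generalize C v * N = b
  exact_mod_cast Nat.mul_le_mul (Nat.pow_le_pow_left (by omega) w) (by omega)

theorem unbounded [Module.Free ℤ A] {x : ℕ → A} (hx : Function.Injective x) :
    ∃ f : A →ₗ[ℤ] ℤ, ∀ N : ℤ, ∃ w, N ≤ f (x w) := by
  by_contra h
  push Not at h
  choose N hN using h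
  let b := Module.Free.chooseBasis ℤ A
  refine Set.infinite_range_of_injective (b.equivFun.injective.comp hx)
    ((Set.Finite.pi' fun i => Set.finite_Ioo (-N (-b.coord i)) (N (b.coord i))).subset ?_)
  rintro _ ⟨w, rfl⟩ i
  have h1 := hN (-b.coord i) w
  exact ⟨by simpa [neg_lt] using h1, hN (b.coord i) w⟩

theorem approx (T : (Module.End ℤ A)ˣ) (N : ℕ) (a : ℤ) (v : A) : ∃ (z y : ℕ) (j x : A),
    (T.1 ^ (z + 1)) j - j = (T.1 ^ y) v - v ∧ a • v - j = (T.1 ^ N) x - (2 : ℤ) • x := by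
  let B := LinearMap.range (T.1 ^ N - (2 : ℤ) • (1 : Module.End ℤ A))
  have hB : ∀ u, u ∈ B ↔ ∃ x, (T.1 ^ N) x - (2 : ℤ) • x = u := fun u => Iff.rfl
  have hs : ∀ (k : ℕ) u, ∃ x, (T.1 ^ k) x = u := fun k u => ⟨(T ^ k)⁻¹.1 u, by
    rw [← Module.End.mul_apply, ← Units.val_pow_eq_pow_val, Units.mul_inv, Module.End.one_apply]⟩
  have hT : ∀ (k : ℕ), ∀ u ∈ B, (T.1 ^ k) u ∈ B := fun k u hu => by
    obtain ⟨x, rfl⟩ := (hB u).1 hu
    refine (hB _).2 ⟨(T.1 ^ k) x, ?_⟩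
    rw [map_sub, map_smul, ← Module.End.mul_apply, ← Module.End.mul_apply, pow_mul_comm]
  obtain ⟨r, hr, hr'⟩ := Submodule.exists_sub_one_mem_and_smul_le_of_fg_of_le_sup
    (I := Ideal.span {(2 : ℤ)}) (N := B) (N' := ⊤) (P := ⊤) Module.Finite.fg_top le_rfl
    fun u _ => by
      obtain ⟨x, rfl⟩ := hs N u
      rw [← sub_add_cancel ((T.1 ^ N) x) ((2 : ℤ) • x)]
      exact Submodule.add_mem_sup ((hB _).2 ⟨x, rfl⟩)
        (Submodule.smul_mem_smul (Ideal.mem_span_singleton_self _) Submodule.mem_top)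
  have hr0 : r ≠ 0 := by
    rintro rfl
    have := Ideal.mem_span_singleton.1 hr
    omega
  have hrB : ∀ u, r • u ∈ B := fun u => hr' (Submodule.smul_mem_pointwise_smul u r ⊤ trivial)
  have : Finite (A ⧸ B) := Module.finite_of_fg_torsion _ fun q => by
    obtain ⟨u, rfl⟩ := B.mkQ_surjective q
    exact ⟨⟨r, mem_nonZeroDivisors_of_ne_zero hr0⟩, (Submodule.Quotient.mk_eq_zero B).2 (hrB u)⟩
  obtain ⟨z, hz⟩ : ∃ z : ℕ, ∀ u, (T.1 ^ (z + 1)) u - u ∈ B := by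
    have : Finite (A ⧸ B →ₗ[ℤ] A ⧸ B) := DFunLike.finite _
    obtain ⟨k, k', hk, e⟩ := Finite.exists_ne_map_eq_of_infinite
      fun k : ℕ => B.mapQ B (T.1 ^ k) (hT k)
    wlog hlt : k < k' generalizing k k'
    · exact this k' k hk.symm e.symm (by omega)
    refine ⟨k' - k - 1, fun u => ?_⟩
    obtain ⟨x, rfl⟩ := hs k u
    rw [← Module.End.mul_apply, ← pow_add, show k' - k - 1 + 1 + k = k' by omega]
    exact (Submodule.Quotient.eq B).1 (DFunLike.congr_fun e.symm (B.mkQ x))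
  have h1 : ∀ i : ℕ, ∃ j, (T.1 ^ (z + 1)) j - j = (T.1 ^ ((z + 1) * i)) v - v ∧
      (i : ℤ) • v - j ∈ B := fun i => by
    induction i with
    | zero => exact ⟨0, by simp⟩
    | succ i ih =>
      obtain ⟨j, h1, h2⟩ := ih
      refine ⟨(T.1 ^ (z + 1)) j + v, ?_, ?_⟩
      · have := congrArg (T.1 ^ (z + 1)) h1
        rw [map_sub, map_sub, ← Module.End.mul_apply _ (T.1 ^ ((z + 1) * i)), ← pow_add] at this
        rw [map_add, show (z + 1) * (i + 1) = z + 1 + (z + 1) * i by ring]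
        linear_combination (norm := abel_nf) this
      · convert B.sub_mem h2 (hz j) using 1
        push_cast
        module
  obtain ⟨j, h2, h3⟩ := h1 (a % r).toNat
  rw [Int.toNat_of_nonneg (Int.emod_nonneg a hr0)] at h3
  obtain ⟨x, hx⟩ := (hB _).1 (B.add_mem h3 (hrB ((a / r) • v)))
  refine ⟨z, _, j, x, h2, ?_⟩
  rw [hx, smul_smul, sub_add_eq_add_sub, ← add_smul, Int.emod_add_mul_ediv]

end Pool.Agent.Lib.MP_db697d_lc.Exp
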