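import Mathlib

/-!
An automorphism of a lattice is virtually unipotent or has an eigenvalue of infinite order.
-/

namespace Pool.Agent.Lib.MP_db697d_lc.Exp

open Polynomial

theorem roots_ind {K W : Type} [Field K] [AddCommGroup W] [Module K W] (Φ : Module.End K W)
    (h : ∀ l : K, (∃ k : ℕ, 0 < k ∧ l ^ k = 1) ∨ ∀ ψ, Φ ψ = l • ψ → ψ = 0) (s : Multiset K) :
    ∃ k N : ℕ, 0 < k ∧ ∀ ψ, aeval Φ (s.map fun l => X - C l).prod ψ = 0 →
      aeval Φ ((X ^ k - 1 : K[X]) ^ N) ψ = 0 := by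
  induction s using Multiset.induction_on with
  | empty => exact ⟨1, 0, one_pos, by simp⟩
  | cons l s ih =>
    obtain ⟨k, N, hk, ih⟩ := ih
    rw [Multiset.map_cons, Multiset.prod_cons]
    rcases h l with ⟨m, hm, h⟩ | h
    · refine ⟨k * m, N + 1, Nat.mul_pos hk hm, fun ψ hψ => ?_⟩
      rw [mul_comm, map_mul, Module.End.mul_apply] at hψ
      have h1 := ih _ hψ
      rw [← Module.End.mul_apply, ← map_mul] at h1
      obtain ⟨q, hq⟩ : (X ^ k - 1 : K[X]) ^ N * (X - C l) ∣ (X ^ (k * m) - 1) ^ (N + 1) := by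
        rw [pow_succ]
        refine mul_dvd_mul (pow_dvd_pow_of_dvd ?_ N) (dvd_iff_isRoot.2 ?_)
        · rw [pow_mul]
          exact sub_one_dvd_pow_sub_one _ m
        · simp [mul_comm k, pow_mul, h]
      rw [hq, mul_comm, map_mul, Module.End.mul_apply, h1, map_zero]
    · refine ⟨k, N, hk, fun ψ hψ => ih ψ (h _ ?_)⟩
      rw [map_mul, Module.End.mul_apply] at hψ
      simpa [sub_eq_zero] using hψ

theorem dich {A : Type} [AddCommGroup A] [Module.Finite ℤ A] [Module.Free ℤ A]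
    (T : Module.End ℤ A) : (∃ k N : ℕ, 0 < k ∧ (T ^ k - 1) ^ N = 0) ∨
      ∃ (K : Type) (_ : Field K) (_ : NumberField K) (l : K) (ψ : A →ₗ[ℤ] K), IsIntegral ℤ l ∧
        (∀ k : ℕ, 0 < k → l ^ k ≠ 1) ∧ ψ ≠ 0 ∧ (∀ u, ψ (T u) = l * ψ u) ∧
        ∀ u, IsIntegral ℤ (ψ u) := by
  obtain ⟨F, hF, hF'⟩ := LinearMap.exists_monic_and_aeval_eq_zero ℤ T
  let K := (F.map (algebraMap ℤ ℚ)).SplittingField
  have : NumberField K := {}
  let Φ : Module.End K (A →ₗ[ℤ] K) :=
    { toFun := fun ψ => ψ ∘ₗ T, map_add' := fun _ _ => rfl, map_smul' := fun _ _ => rfl }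
  have h1 : ∀ (p : ℤ[X]) ψ u, aeval Φ (p.map (algebraMap ℤ K)) ψ u = ψ (aeval T p u) := by
    intro p
    induction p using Polynomial.induction_on with
    | C a => intro ψ u; simp
    | add p q hp hq =>
      intro ψ u
      rw [Polynomial.map_add, map_add, map_add, LinearMap.add_apply, LinearMap.add_apply,
        LinearMap.add_apply, map_add, hp, hq]
    | monomial k a h =>
      intro ψ u
      rw [pow_succ', mul_left_comm, mul_comm X, Polynomial.map_mul, map_mul, map_X, aeval_X,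
        Module.End.mul_apply, h, mul_comm _ X, map_mul _ X, aeval_X, Module.End.mul_apply]
      rfl
  by_cases h : ∀ l : K, (∃ k : ℕ, 0 < k ∧ l ^ k = 1) ∨ ∀ ψ, Φ ψ = l • ψ → ψ = 0
  · obtain ⟨k, N, hk, h2⟩ := roots_ind Φ h (F.map (algebraMap ℤ K)).roots
    have h3 : (F.map (algebraMap ℤ K)).Splits := by
      have := SplittingField.splits (F.map (algebraMap ℤ ℚ))
      rwa [Polynomial.map_map, ← IsScalarTower.algebraMap_eq] at this
    rw [← h3.eq_prod_roots_of_monic (hF.map _)] at h2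
    refine Or.inl ⟨k, N, hk, LinearMap.ext fun u => ?_⟩
    let b := Module.Free.chooseBasis ℤ A
    refine b.ext_elem fun i => ?_
    have h4 := h1 ((X ^ k - 1) ^ N) (Algebra.linearMap ℤ K ∘ₗ b.coord i) u
    rw [show ((X ^ k - 1 : ℤ[X]) ^ N).map (algebraMap ℤ K) = (X ^ k - 1) ^ N by simp,
      h2 _ (LinearMap.ext fun u => by rw [h1, hF']; simp)] at h4
    simpa using h4.symm
  · push Not at h
    obtain ⟨l, hl, ψ, h2, h3⟩ := h
    have h4 : ∀ u, ψ (T u) = l * ψ u := fun u => DFunLike.congr_fun h2 u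
    have h5 : IsIntegral ℤ l := by
      obtain ⟨u, hu⟩ := DFunLike.ne_iff.1 h3
      refine ⟨F, hF, ?_⟩
      have h5 := h1 F ψ u
      rw [hF', Module.End.aeval_apply_of_hasEigenvector
        ⟨Module.End.mem_eigenspace_iff.2 h2, h3⟩] at h5
      simpa [eval_map, show ψ u ≠ 0 from hu] using h5
    obtain ⟨s, hs⟩ := Module.Finite.fg_top (R := ℤ) (M := A)
    classical
    obtain ⟨d, hd, h6⟩ := exists_integral_multiples ℤ ℚ (s.image ψ)
    refine Or.inr ⟨K, inferInstance, this, l, d • ψ, h5, hl, smul_ne_zero hd h3,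
      fun u => by simp [h4, mul_left_comm], fun u => ?_⟩
    have hu : u ∈ Submodule.span ℤ (s : Set A) := hs ▸ Submodule.mem_top
    induction hu using Submodule.span_induction with
    | mem x hx => exact h6 _ (Finset.mem_image_of_mem _ hx)
    | zero => simpa using isIntegral_zero
    | add x y _ _ hx hy => exact map_add (d • ψ) x y ▸ hx.add hy
    | smul a x _ hx => exact map_smul (d • ψ) a x ▸ hx.smul a

end Pool.Agent.Lib.MP_db697d_lc.Exp
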