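import Pool.Agent.Lib.MP_db697d_lc.Exp.Mod

/-!
A polycyclic group that is not virtually abelian contains a lattice with an automorphism of
infinite order.
-/

namespace Pool.Agent.Lib.MP_db697d_lc.Exp

open Subgroup

variable {G : Type} [Group G]

/-- Virtually abelian subgroups. -/
def VA (N : Subgroup G) : Prop :=
  ∃ B ≤ N, (∀ a ∈ B, ∀ b ∈ B, a * b = b * a) ∧ B.relIndex N ≠ 0

theorem mem_norm {N : Subgroup G} {t : G} (h : ∀ x ∈ N, t * x * t⁻¹ ∈ N)
    (h' : ∀ x ∈ N, t⁻¹ * x * t⁻¹⁻¹ ∈ N) : t ∈ normalizer (N : Set G) :=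
  fun x => ⟨h x, fun hx => by simpa [mul_assoc] using h' _ hx⟩

theorem exists_lattice (hG : ∀ H : Subgroup G, H.FG) {N : Subgroup G} (h : VA N) :
    ∃ A ≤ N, (∀ a ∈ A, ∀ b ∈ A, a * b = b * a) ∧ (∀ a ∈ A, IsOfFinOrder a → a = 1) ∧
      A.relIndex N ≠ 0 ∧ ∀ t ∈ normalizer (N : Set G), t ∈ normalizer (A : Set G) := by
  obtain ⟨B, h1, h2, h3⟩ := h
  obtain ⟨e, he, h4⟩ : ∃ e : ℕ, e ≠ 0 ∧ ∀ a ∈ B, IsOfFinOrder a → a ^ e = 1 := by
    let Z : Subgroup G :=
      { carrier := {a | a ∈ B ∧ IsOfFinOrder a}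
        mul_mem' := fun {a b} ha hb => ⟨mul_mem ha.1 hb.1,
          Commute.isOfFinOrder_mul (h2 a ha.1 b hb.1) ha.2 hb.2⟩
        one_mem' := ⟨one_mem _, IsOfFinOrder.one⟩
        inv_mem' := fun ha => ⟨inv_mem ha.1, ha.2.inv⟩ }
    obtain ⟨S, hS⟩ := hG Z
    have h5 : ∀ a ∈ closure (S : Set G), a ∈ Z := fun a ha => hS ▸ ha
    refine ⟨∏ s ∈ S, orderOf s, Finset.prod_ne_zero_iff.2 fun s hs =>
      (h5 s (subset_closure hs)).2.orderOf_pos.ne', fun a ha ha' => ?_⟩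
    have h6 : a ∈ closure (S : Set G) := hS ▸ (⟨ha, ha'⟩ : a ∈ Z)
    clear ha ha'
    induction h6 using closure_induction with
    | mem x hx => exact orderOf_dvd_iff_pow_eq_one.1 (Finset.dvd_prod_of_mem _ hx)
    | one => exact one_pow _
    | mul x y hx hy ih ih' =>
      rw [Commute.mul_pow (h2 x (h5 x hx).1 y (h5 y hy).1), ih, ih', one_mul]
    | inv x _ ih => rw [inv_pow, ih, inv_one]
  set m := (B.relIndex N).factorial
  have h5 : ∀ g ∈ N, g ^ m ∈ B := fun g hg =>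
    (pow_mem_of_relIndex_ne_zero_of_dvd h3 hg fun _ => Nat.dvd_factorial).1
  let A := closure {x | ∃ g ∈ N, g ^ (m * e) = x}
  have h6 : ∀ x ∈ A, ∃ b ∈ B, b ^ e = x := fun x hx => by
    induction hx using closure_induction with
    | mem x hx =>
      obtain ⟨g, hg, rfl⟩ := hx
      exact ⟨_, h5 g hg, (pow_mul _ _ _).symm⟩
    | one => exact ⟨1, one_mem _, one_pow _⟩
    | mul x y _ _ ih ih' =>
      obtain ⟨a, ha, rfl⟩ := ih
      obtain ⟨b, hb, rfl⟩ := ih'
      exact ⟨_, mul_mem ha hb, Commute.mul_pow (h2 a ha b hb) _⟩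
    | inv x _ ih =>
      obtain ⟨a, ha, rfl⟩ := ih
      exact ⟨_, inv_mem ha, inv_pow _ _⟩
  have h7 : A ≤ B := fun x hx => by
    obtain ⟨b, hb, rfl⟩ := h6 x hx
    exact pow_mem hb _
  have h8 : ∀ t ∈ normalizer (N : Set G), ∀ x ∈ A, t * x * t⁻¹ ∈ A := fun t ht x hx => by
    induction hx using closure_induction with
    | mem x hx =>
      obtain ⟨g, hg, rfl⟩ := hx
      exact subset_closure ⟨_, (ht g).1 hg, conj_pow⟩
    | one => simp
    | mul x y _ _ ih ih' => simpa [mul_assoc] using mul_mem ih ih'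
    | inv x _ ih => simpa [mul_assoc] using inv_mem ih
  refine ⟨A, h7.trans h1, fun a ha b hb => h2 a (h7 ha) b (h7 hb), fun a ha ha' => ?_,
    relIndex_ne_zero_trans ?_ h3, fun t ht => mem_norm (h8 t ht) (h8 _ (inv_mem ht))⟩
  · obtain ⟨b, hb, rfl⟩ := h6 a ha
    exact h4 b hb (ha'.of_pow he)
  · let : CommGroup B := { (inferInstance : Group B) with
      mul_comm := fun a b => Subtype.ext (h2 _ a.2 _ b.2) }
    have : Group.FG B := (Group.fg_iff_subgroup_fg B).2 (hG B)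
    have := finiteIndex_range_powMonoidHom_of_fg B (mul_ne_zero (Nat.factorial_ne_zero _) he :
      m * e ≠ 0)
    refine (finiteIndex_of_le (H := (powMonoidHom (α := B) (m * e)).range)
      (K := A.subgroupOf B) ?_).index_ne_zero
    rintro _ ⟨b, rfl⟩
    exact subset_closure ⟨b, h1 b.2, rfl⟩

theorem va_step {N A : Subgroup G} {t : G} (ht : t ∈ normalizer (N : Set G)) (h1 : A ≤ N)
    (h2 : ∀ a ∈ A, ∀ b ∈ A, a * b = b * a) (h3 : A.relIndex N ≠ 0) {k : ℕ} (hk : 0 < k)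
    (h4 : ∀ a ∈ A, a * t ^ k = t ^ k * a) : VA (zpowers t ⊔ N) := by
  have h5 : zpowers (t ^ k) ≤ centralizer (A : Set G) := zpowers_le.2 h4
  have h6 : zpowers (t ^ k) ⊔ A ≤ centralizer (zpowers (t ^ k) ⊔ A : Subgroup G) :=
    sup_le (le_centralizer_iff.1 (sup_le (le_centralizer _) (le_centralizer_iff.1 h5)))
      (le_centralizer_iff.1 (sup_le h5 fun a ha b hb => h2 b hb a ha))
  refine ⟨zpowers (t ^ k) ⊔ A, sup_le_sup (zpowers_le.2 (pow_mem (mem_zpowers t) k)) h1,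
    fun a ha b hb => h6 hb a ha, ?_⟩
  have : (A.subgroupOf N).FiniteIndex := ⟨h3⟩
  have : Finite ((zpowers t ⊔ N : Subgroup G) ⧸
      (zpowers (t ^ k) ⊔ A).subgroupOf (zpowers t ⊔ N)) := by
    refine Finite.of_surjective (fun p : Fin k × (N ⧸ A.subgroupOf N) =>
      QuotientGroup.mk ⟨t ^ (p.1 : ℕ) * p.2.out, mul_mem
        (mem_sup_left (pow_mem (mem_zpowers t) _)) (mem_sup_right p.2.out.2)⟩) fun q => ?_
    obtain ⟨⟨g, hg⟩, rfl⟩ := QuotientGroup.mk_surjective q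
    have hg' := hg
    rw [← SetLike.mem_coe, coe_mul_of_left_le_normalizer_right _ _ (zpowers_le.2 ht)] at hg'
    obtain ⟨_, ⟨a, rfl⟩, x, hx, rfl⟩ := hg'
    have a1 := Int.emod_nonneg a (Int.natCast_ne_zero.2 hk.ne')
    have a2 := Int.emod_lt_of_pos a (Int.natCast_pos.2 hk)
    have a3 := (zpow_mem (pow_mem ht k) (a / k) x).1 hx
    refine ⟨(⟨(a % k).toNat, by omega⟩, QuotientGroup.mk ⟨_, a3⟩), QuotientGroup.eq.2 ?_⟩
    have a4 := QuotientGroup.eq.1 (QuotientGroup.out_eq' (s := A.subgroupOf N)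
      (QuotientGroup.mk ⟨_, a3⟩))
    rw [mem_subgroupOf] at a4 ⊢
    convert mul_mem (mem_sup_right a4) (mem_sup_left (zpow_mem (mem_zpowers (t ^ k)) (a / k)))
      using 1
    have a5 : t ^ a = t ^ (a % k).toNat * (t ^ k) ^ (a / k) := by
      rw [← zpow_natCast, ← zpow_natCast, ← zpow_mul, ← zpow_add, Int.toNat_of_nonneg a1,
        Int.emod_add_mul_ediv]
    simp only [coe_mul, InvMemClass.coe_inv, a5]
    group
  exact (finiteIndex_of_finite_quotient).index_ne_zero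

theorem exists_action (hs : Group.IsSolvable G) (hG : ∀ H : Subgroup G, H.FG)
    (h : ¬ VA (⊤ : Subgroup G)) :
    ∃ (A : Subgroup G) (t : G), (∀ a ∈ A, ∀ b ∈ A, a * b = b * a) ∧
      (∀ a ∈ A, IsOfFinOrder a → a = 1) ∧ t ∈ normalizer (A : Set G) ∧
      ∀ k : ℕ, 0 < k → ¬ ∀ a ∈ A, a * t ^ k = t ^ k * a := by
  classical
  by_contra hF
  push Not at hF
  have h1 : ∀ D : Subgroup G, VA ⁅D, D⁆ → VA D := fun D hD => by
    obtain ⟨S, hS⟩ := hG D
    have h2 : ∀ S' : Finset G, (∀ s ∈ S', s ∈ D) → VA (closure (S' : Set G) ⊔ ⁅D, D⁆) := by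
      intro S'
      induction S' using Finset.induction_on with
      | empty => simpa using hD
      | insert s S' _ ih =>
        intro hS'
        have h3 : closure (S' : Set G) ⊔ ⁅D, D⁆ ≤ D :=
          sup_le ((closure_le _).2 fun x hx => hS' x (Finset.mem_insert_of_mem hx))
            (commutator_le_self D)
        have h4 : ∀ s ∈ D, ∀ x ∈ closure (S' : Set G) ⊔ ⁅D, D⁆,
            s * x * s⁻¹ ∈ closure (S' : Set G) ⊔ ⁅D, D⁆ := fun s hs x hx => by
          simpa [commutatorElement_def] using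
            mul_mem (mem_sup_right (commutator_mem_commutator hs (h3 hx))) hx
        have h5 := hS' s (Finset.mem_insert_self _ _)
        have h6 := mem_norm (h4 s h5) (h4 _ (inv_mem h5))
        obtain ⟨A, a1, a2, a3, a4, a5⟩ :=
          exists_lattice hG (ih fun x hx => hS' x (Finset.mem_insert_of_mem hx))
        obtain ⟨k, hk, a6⟩ := hF A s a2 a3 (a5 s h6)
        rw [Finset.coe_insert, Set.insert_eq, Subgroup.closure_union, ← zpowers_eq_closure, sup_assoc]
        exact va_step h6 a1 a2 a4 hk a6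
    have := h2 S fun s hs => hS ▸ subset_closure hs
    rwa [hS, sup_eq_left.2 (commutator_le_self D)] at this
  obtain ⟨i, hi⟩ := hs
  have h2 : VA (derivedSeries G i) := ⟨⊥, bot_le, by simp, by simp [hi]⟩
  clear hi
  induction i with
  | zero => exact h h2
  | succ i ih => exact ih (h1 _ h2)

theorem undecidable (hs : Group.IsSolvable G) (hG : ∀ H : Subgroup G, H.FG)
    (h : ¬ ∃ A : Subgroup G, A.index ≠ 0 ∧ ∀ a ∈ A, ∀ b ∈ A, a * b = b * a) {n : ℕ}
    {π : FreeGroup (Fin n) →* G} (hπ : Function.Surjective π) :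
    ∃ (k : ℕ) (g : Fin k → G), ¬ ComputablePred (XP π g) := by
  obtain ⟨Z, t, h1, h2, h3, h4⟩ := exists_action hs hG
    fun ⟨B, _, h1, h2⟩ => h ⟨B, by simpa using h2, h1⟩
  let : CommGroup Z := { (inferInstance : Group Z) with
    mul_comm := fun a b => Subtype.ext (h1 _ a.2 _ b.2) }
  have : Group.FG Z := (Group.fg_iff_subgroup_fg Z).2 (hG Z)
  let T : (Module.End ℤ (Additive Z))ˣ := LinearMap.GeneralLinearGroup.ofLinearEquiv
    (MulEquiv.toAdditive (Z.normalizerMonoidHom ⟨t, h3⟩)).toIntLinearEquiv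
  let ι : Additive Z → G := fun y => (y.toMul : Z)
  have c : Ctx π T ι t := ⟨hπ, fun _ _ h => Additive.toMul.injective (Subtype.ext h),
    fun _ _ => rfl, fun _ => rfl, Module.Finite.iff_addGroup_fg.2 inferInstance⟩
  have := c.fg
  have : Module.IsTorsionFree ℤ (Additive Z) := .of_smul_eq_zero fun k a e => by
    refine or_iff_not_imp_left.2 fun hk => c.inj (h2 _ a.toMul.2 ?_)
    exact isOfFinOrder_iff_zpow_eq_one.2 ⟨k, hk, congrArg ι e⟩
  obtain ⟨u, M, hM⟩ := exists_mul c fun k hk e => h4 k hk fun a ha => by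
    have := rep_zpow c.act k (Additive.ofMul ⟨a, ha⟩)
    rw [zpow_natCast, zpow_natCast, Units.val_pow_eq_pow_val, e] at this
    exact eq_mul_inv_iff_mul_eq.1 this
  exact hM.undecidable c

end Pool.Agent.Lib.MP_db697d_lc.Exp
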