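import Pool.Agent.Lib.MP_db697d_lc.Exp.TD
import Pool.Agent.Lib.MP_db697d_lc.Exp.Big
import Pool.Agent.Lib.MP_db697d_lc.Exp.Dich

/-!
A definable product for every automorphism of infinite order of a lattice.
-/

namespace Pool.Agent.Lib.MP_db697d_lc.Exp

variable {G : Type} [Group G] {n : ℕ} {π : FreeGroup (Fin n) →* G}
  {A : Type} [AddCommGroup A] {T : (Module.End ℤ A)ˣ} {ι : A → G} {t : G}

theorem mtm_zsmul {α : Type} (k : ℤ) {m : (α → ℤ × A) → A} (h : MTm T m) :
    MTm T fun v => k • m v := by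
  induction k using Int.induction_on with
  | zero => exact (MTm.const 0).of_eq (by simp)
  | succ k ih => exact (ih.add h).of_eq fun v => by rw [add_smul, one_smul]
  | pred k ih => exact (ih.sub h).of_eq fun v => by rw [sub_smul, one_smul]

theorem mul_unip (c : Ctx π T ι t) {k : ℕ} {u v : A} (h0 : ∀ a b : ℤ, a • u = b • u → a = b)
    (h1 : (T ^ k).1 v = v + u) (h2 : (T ^ k).1 u = u) : ∃ M, Mul π T ι u M := by
  have h3 : ∀ x : ℤ, (T ^ (k * x)).1 u = u ∧ (T ^ (k * x)).1 v = v + x • u := fun x => by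
    have e : ∀ (x : ℤ) y, (T ^ (k * (x + 1))).1 y = (T ^ (k * x)).1 ((T ^ k).1 y) := fun x y => by
      rw [mul_add, mul_one, zpow_add, zpow_natCast]
      rfl
    induction x using Int.induction_on with
    | zero => simp
    | succ x ih =>
      rw [e, e, h1, h2, map_add, ih.1, ih.2, add_smul, one_smul, add_assoc]
      exact ⟨rfl, rfl⟩
    | pred x ih =>
      have a1 := e (-x - 1) u
      have a2 := e (-x - 1) v
      rw [sub_add_cancel] at a1 a2
      rw [h2, ih.1] at a1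
      rw [h1, map_add, ih.2, ← a1] at a2
      exact ⟨a1.symm, by rw [eq_sub_of_add_eq a2.symm, sub_smul, one_smul]; abel⟩
  have h4 : ∀ x y : ℤ, (T ^ (k * x)).1 (y • v) - y • v = (x * y) • u := fun x y => by
    rw [map_smul, (h3 x).2]
    module
  refine ⟨fun a b d => ∃ x : ℤ, ∃ y ∈ Submodule.span ℤ {v}, (T ^ (k * x)).1 v - v = a ∧
    (T ^ (k * (1 : ℤ))).1 y - y = b ∧ (T ^ (k * x)).1 y - y = d, h0,
    fun _ _ _ _ ha hb hd => c.exZ (c.exM _ ((c.eq ((MTm.act (.cmul k (.var (some none)))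
      (.const v)).sub (.const v)) ha.lift.lift).and ((c.eq ((MTm.act (.const _) (.var none)).sub
        (.var none)) hb.lift.lift).and (c.eq ((MTm.act (.cmul k (.var (some none)))
          (.var none)).sub (.var none)) hd.lift.lift)))), fun a b d => ?_⟩
  have h5 := fun x => h4 x 1
  simp only [one_smul, mul_one] at h5
  simp only [Submodule.mem_span_singleton, exists_exists_eq_and, h4, h5, one_mul]
  exact ⟨fun ⟨x, y, e1, e2, e3⟩ => by rw [← h0 _ _ e1, ← h0 _ _ e2, h0 _ _ e3],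
    fun e => ⟨a, b, rfl, rfl, by rw [e]⟩⟩

theorem mul_eig (c : Ctx π T ι t) [Module.Free ℤ A] {K : Type} [Field K] [NumberField K] {l : K}
    {ψ : A →ₗ[ℤ] K} (hl : IsIntegral ℤ l) (hr : ∀ k : ℕ, 0 < k → l ^ k ≠ 1) (hψ : ψ ≠ 0)
    (hT : ∀ u, ψ (T.1 u) = l * ψ u) (hi : ∀ u, IsIntegral ℤ (ψ u)) : ∃ u M, Mul π T ι u M := by
  have := c.fg
  have h1 : ∀ (k : ℕ) u, ψ ((T.1 ^ k) u) = l ^ k * ψ u := fun k u => by
    induction k with
    | zero => simp
    | succ k ih => rw [pow_succ', Module.End.mul_apply, hT, ih, pow_succ', mul_assoc]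
  obtain ⟨v, hv⟩ : ∃ v, ψ v ≠ 0 := DFunLike.ne_iff.1 hψ
  have h0 : l ≠ 0 := by
    rintro rfl
    have := hT (T⁻¹.1 v)
    rw [← Module.End.mul_apply, Units.mul_inv, zero_mul] at this
    exact hv this
  obtain ⟨f, hf⟩ := unbounded (x := fun w : ℕ => (T.1 ^ w) v) fun a b e => by
    replace e := congrArg ψ e
    rw [h1, h1, mul_left_inj' hv] at e
    by_contra hne
    wlog hlt : a < b generalizing a b
    · exact this b a e.symm (Ne.symm hne) (by omega)
    refine hr (b - a) (by omega) (mul_left_cancel₀ (pow_ne_zero a h0) ?_)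
    rw [← pow_add, mul_one, e]
    congr 1
    omega
  obtain ⟨w0, hw0⟩ := hf 1
  obtain ⟨E, hE⟩ := growth T.1 f v
  set u := (T.1 ^ w0) v with hu
  have hu0 : ψ u ≠ 0 := by
    rw [hu, h1]
    exact mul_ne_zero (pow_ne_zero _ h0) hv
  have hfu : f u ≠ 0 := by omega
  have inj : ∀ a b : ℤ, a • u = b • u → a = b := fun a b e => by
    simpa [hfu] using congrArg f e
  obtain ⟨L, hL⟩ := big hl h0 hr hu0 (2 * E ^ 2)
  let Bd : A → A → Prop := fun r a => (∃ k : ℕ, r - a = k • u) ∧ ∃ k : ℕ, r + a = k • u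
  have hB : ∀ ⦃α : Type⦄ ⦃r a : (α → ℤ × A) → A⦄, MTm T r → MTm T a →
      TD π T ι fun v => Bd (r v) (a v) :=
    fun _ _ _ hr ha => (c.nat (hr.sub ha) u).and (c.nat (hr.add ha) u)
  have hB1 : ∀ r a : ℤ, |a| ≤ r → Bd (r • u) (a • u) := fun r a h => by
    have := abs_le.1 h
    refine ⟨⟨(r - a).toNat, ?_⟩, (r + a).toNat, ?_⟩
    · rw [← natCast_zsmul, Int.toNat_of_nonneg (by omega), sub_smul]
    · rw [← natCast_zsmul, Int.toNat_of_nonneg (by omega), add_smul]
  have hB2 : ∀ (r : A) (ρ a : ℤ), f r = ρ * f u → Bd r (a • u) → |a| ≤ ρ := by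
    rintro r ρ a h ⟨⟨k, hk⟩, k', hk'⟩
    have e1 := congrArg f hk
    have e2 := congrArg f hk'
    simp only [map_sub, map_add, map_smul, map_nsmul, h, smul_eq_mul, nsmul_eq_mul, ← sub_mul,
      ← add_mul, mul_left_inj' hfu] at e1 e2
    exact abs_le.2 ⟨by omega, by omega⟩
  have hp : ∀ k : ℕ, (T ^ (k : ℤ)).1 = T.1 ^ k := fun k => by
    rw [zpow_natCast, Units.val_pow_eq_pow_val]
  let Cr : ℤ → ℤ → ℤ → A → A → A → Prop := fun w z y a b d => ∃ j m x x' r : A,
    (T ^ (z + 1)).1 j - j = (T ^ y).1 u - u ∧ (T ^ (z + 1)).1 m - m = (T ^ y).1 b - b ∧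
    a - j = (T ^ (L * (w + 1))).1 x - (2 : ℤ) • x ∧
    d - m = (T ^ (L * (w + 1))).1 x' - (2 : ℤ) • x' ∧
    f u • (T ^ w).1 v - r ∈ LinearMap.ker f ∧ Bd r a ∧ Bd r b ∧ Bd r d
  have hC : ∀ ⦃α : Type⦄ ⦃w z y : (α → ℤ × A) → ℤ⦄ ⦃a b d : (α → ℤ × A) → A⦄, ETm w → ETm z →
      ETm y → MTm T a → MTm T b → MTm T d →
      TD π T ι fun v => Cr (w v) (z v) (y v) (a v) (b v) (d v) := by
    intro α w z y a b d hw hz hy ha hb hd
    refine c.exA (c.exA (c.exA (c.exA (c.exA ?_))))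
    have a' := ha.lift.lift.lift.lift.lift
    have b' := hb.lift.lift.lift.lift.lift
    have d' := hd.lift.lift.lift.lift.lift
    have w' := hw.lift.lift.lift.lift.lift
    have z' := hz.lift.lift.lift.lift.lift
    have y' := hy.lift.lift.lift.lift.lift
    exact .and (c.eq (.sub (.act (.add z' (.const 1)) (.var _)) (.var _))
      (.sub (.act y' (.const _)) (.const _)))
      (.and (c.eq (.sub (.act (.add z' (.const 1)) (.var _)) (.var _)) (.sub (.act y' b') b'))
      (.and (c.eq (.sub a' (.var _)) (.sub (.act (.cmul L (.add w' (.const 1))) (.var _))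
        (mtm_zsmul 2 (.var _))))
      (.and (c.eq (.sub d' (.var _)) (.sub (.act (.cmul L (.add w' (.const 1))) (.var _))
        (mtm_zsmul 2 (.var _))))
      (.and (c.mem (.sub (mtm_zsmul _ (.act w' (.const _))) (.var _)) _)
      (.and (hB (.var _) a') (.and (hB (.var _) b') (hB (.var _) d')))))))
  refine ⟨u, fun a b d => ∃ w z y : ℕ, Cr w z y a b d, inj,
    fun α a b d ha hb hd => ?_, fun a b d => ⟨?_, ?_⟩⟩
  · refine c.exN (P := fun w v => ∃ z y : ℕ, Cr w z y (a v) (b v) (d v))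
      (c.exN (P := fun z (v : Option α → ℤ × A) => ∃ y : ℕ, Cr (v none).1 z y
        (a fun i => v (some i)) (b fun i => v (some i)) (d fun i => v (some i)))
      (c.exN (P := fun y (v : Option (Option α) → ℤ × A) => Cr (v (some none)).1 (v none).1 y
        (a fun i => v (some (some i))) (b fun i => v (some (some i)))
        (d fun i => v (some (some i)))) ?_))
    exact hC (.var _) (.var _) (.var _) ha.lift.lift.lift hb.lift.lift.lift hd.lift.lift.lift
  · rintro ⟨w, z, y, j, m, x, x', r, e1, e2, e3, e4, e5, b1, b2, b3⟩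
    have e5 : f r = f ((T.1 ^ w) v) * f u := by
      rw [LinearMap.mem_ker, map_sub, map_smul, sub_eq_zero, hp] at e5
      rw [← e5, smul_eq_mul, mul_comm]
    have b1 := hB2 _ _ _ e5 b1
    have b2 := hB2 _ _ _ e5 b2
    have b3 := hB2 _ _ _ e5 b3
    have b4 := (le_abs_self _).trans (hE w)
    rw [← Nat.cast_succ, hp, hp] at e1 e2
    rw [← Nat.cast_succ, ← Nat.cast_mul, hp] at e3 e4
    have e1 := congrArg ψ e1
    have e2 := congrArg ψ e2
    have e3 := congrArg ψ e3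
    have e4 := congrArg ψ e4
    simp only [map_sub, map_smul, h1, zsmul_eq_mul, Int.cast_ofNat,
      Nat.succ_eq_add_one] at e1 e2 e3 e4
    have e6 : ψ m = b * ψ j := by
      refine mul_left_cancel₀ (sub_ne_zero.2 (hr (z + 1) z.succ_pos)) ?_
      linear_combination e2 - b * e1
    refine (sub_eq_zero.1 (hL w (d - a * b) (ψ (x' - b • x)) (hi _) ?_ ?_)).symm
    · simp only [map_sub, map_smul, zsmul_eq_mul]
      push_cast
      linear_combination e4 - b * e3 + e6
    · have b5 : |a * b| ≤ (E : ℤ) ^ (w + 1) * E ^ (w + 1) := by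
        rw [abs_mul]
        exact mul_le_mul (b1.trans b4) (b2.trans b4) (abs_nonneg _) (by positivity)
      have b6 : (E : ℤ) ^ (w + 1) ≤ E ^ (w + 1) * E ^ (w + 1) := by
        simpa only [sq] using Int.le_self_sq ((E : ℤ) ^ (w + 1))
      have b7 : (2 : ℤ) ≤ 2 ^ (w + 1) := le_self_pow₀ (by norm_num) (by omega)
      push_cast
      rw [mul_pow, ← pow_mul, two_mul, pow_add (E : ℤ) (w + 1)]
      nlinarith [abs_sub d (a * b), mul_self_nonneg ((E : ℤ) ^ (w + 1))]
  · rintro rfl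
    obtain ⟨w, hw⟩ := hf (|a| + |b| + |a * b|)
    obtain ⟨z, y, j, x, e1, e2⟩ := approx T (L * (w + 1)) a u
    have a1 := abs_nonneg a
    have a2 := abs_nonneg b
    have a3 := abs_nonneg (a * b)
    refine ⟨w, z, y, j, b • j, x, b • x, f ((T.1 ^ w) v) • u, ?_, ?_, ?_, ?_, ?_,
      hB1 _ _ (by omega), hB1 _ _ (by omega), hB1 _ _ (by omega)⟩
    · rw [← Nat.cast_succ, hp, hp, e1]
    · rw [← Nat.cast_succ, hp, hp, map_smul, map_smul, ← smul_sub, ← smul_sub, e1]
    · rw [← Nat.cast_succ, ← Nat.cast_mul, hp, e2]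
    · rw [← Nat.cast_succ, ← Nat.cast_mul, hp, map_smul, smul_comm (2 : ℤ), ← smul_sub b _ (_ • x),
        ← e2, mul_comm, mul_smul, smul_sub]
    · simp [mul_comm]

theorem exists_mul (c : Ctx π T ι t) [Module.Free ℤ A] (h : ∀ k : ℕ, 0 < k → T.1 ^ k ≠ 1) :
    ∃ u M, Mul π T ι u M := by
  have := c.fg
  rcases dich T.1 with ⟨k, N, hk, hN⟩ | ⟨K, _, _, l, ψ, h1, h2, h3, h4, h5⟩
  · classical
    have hex : ∃ N, (T.1 ^ k - 1) ^ (N + 2) = 0 := ⟨N, by rw [pow_add, hN, zero_mul]⟩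
    obtain ⟨x, hx⟩ : ∃ x, ((T.1 ^ k - 1) ^ (Nat.find hex + 1)) x ≠ 0 := by
      by_contra e
      push Not at e
      replace e : (T.1 ^ k - 1) ^ (Nat.find hex + 1) = 0 := LinearMap.ext e
      rcases hf : Nat.find hex with _ | m
      · rw [hf, zero_add, pow_one, sub_eq_zero] at e
        exact h k hk e
      · rw [hf] at e
        exact Nat.find_min hex (m := m) (by omega) e
    have h1 := DFunLike.congr_fun (Nat.find_spec hex) x
    refine ⟨_, mul_unip c (k := k) (u := ((T.1 ^ k - 1) ^ (Nat.find hex + 1)) x)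
      (v := ((T.1 ^ k - 1) ^ Nat.find hex) x) (fun a b e => smul_left_injective ℤ hx e) ?_ ?_⟩
    · simp [pow_succ']
    · rw [pow_succ', Module.End.mul_apply] at h1
      simpa [sub_eq_zero] using h1
  · exact mul_eig c h1 h2 h3 h4 h5

end Pool.Agent.Lib.MP_db697d_lc.Exp
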