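import Pool.Agent.Lib.MP_db697d_lc.Exp.XD
import Pool.Agent.Lib.MP_db697d_lc.Calc

/-!
Relations on integers and module elements that translate into exponent equations; a definable
product on the multiples of one element gives undecidability.
-/

namespace Pool.Agent.Lib.MP_db697d_lc.Exp

variable {G : Type} [Group G] {n : ℕ} {π : FreeGroup (Fin n) →* G} {α : Type}
  {A : Type} [AddCommGroup A] {T : (Module.End ℤ A)ˣ} {ι : A → G} {t : G}

/-- The setting: `ι` embeds `A` and `t` acts as `T`. -/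
structure Ctx (π : FreeGroup (Fin n) →* G) (T : (Module.End ℤ A)ˣ) (ι : A → G) (t : G) :
    Prop where
  surj : Function.Surjective π
  inj : Function.Injective ι
  add : ∀ x y, ι (x + y) = ι x * ι y
  act : ∀ y, ι (T.1 y) = t * ι y * t⁻¹
  fg : Module.Finite ℤ A

/-- Relations that translate into exponent equations. -/
def TD (π : FreeGroup (Fin n) →* G) (T : (Module.End ℤ A)ˣ) (ι : A → G) {α : Type}
    (P : (α → ℤ × A) → Prop) : Prop :=
  ∃ Q, XD π Q ∧ ∀ v g, Reps T ι v g → (Q g ↔ P v)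

theorem Ctx.nsmul (c : Ctx π T ι t) (k : ℕ) (a : A) : ι (k • a) = ι a ^ k :=
  (MonoidHom.mk' (fun z : Multiplicative A => ι z.toAdd) fun _ _ => c.add _ _).map_pow
    (.ofAdd a) k

theorem TD.of_iff {P Q : (α → ℤ × A) → Prop} (h : TD π T ι P) (e : ∀ v, P v ↔ Q v) :
    TD π T ι Q :=
  (funext fun v => propext (e v) : P = Q) ▸ h

theorem TD.and {P Q : (α → ℤ × A) → Prop} : TD π T ι P → TD π T ι Q → TD π T ι fun v => P v ∧ Q v
  | ⟨_, h1, h2⟩, ⟨_, h1', h2'⟩ => ⟨_, h1.and h1', fun v g h => and_congr (h2 v g h) (h2' v g h)⟩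

theorem Ctx.eq (c : Ctx π T ι t) {e f : (α → ℤ × A) → A} (he : MTm T e) (hf : MTm T f) :
    TD π T ι fun v => e v = f v := by
  obtain ⟨a, h1, h2⟩ := he.wd c.surj c.add c.act
  obtain ⟨b, h3, h4⟩ := hf.wd c.surj c.add c.act
  exact ⟨_, XD.eq h1 h3, fun v g h => by rw [h2 v g h, h4 v g h, c.inj.eq_iff]⟩

theorem Ctx.nat (c : Ctx π T ι t) {e : (α → ℤ × A) → A} (he : MTm T e) (u : A) :
    TD π T ι fun v => ∃ k : ℕ, e v = k • u := by
  obtain ⟨a, h1, h2⟩ := he.wd c.surj c.add c.act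
  refine ⟨_, XD.exN (ι u) (P := fun x g => a g = x)
    (XD.eq (h1.subst fun _ => .var _) (.var none)), fun v g h => ?_⟩
  simp only [h2 v g h, ← c.nsmul, c.inj.eq_iff]

theorem reps_cons {v : α → ℤ × A} {g : α × Bool → G} {x : G} {a : ℤ} (y : A) (h : Reps T ι v g)
    (h' : Rep T ι x a) : Reps T ι (fun o : Option α => o.elim (a, y) v)
      fun p => p.1.elim (bif p.2 then ι y else x) fun i => g (i, p.2) := by
  rintro (_ | i)
  exacts [⟨h', rfl⟩, h i]

theorem Ctx.exM (c : Ctx π T ι t) (B : Submodule ℤ A) {P : A → (α → ℤ × A) → Prop}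
    (h : TD π T ι fun v : Option α → ℤ × A => P (v none).2 fun i => v (some i)) :
    TD π T ι fun v => ∃ y ∈ B, P y v := by
  obtain ⟨Q, h1, h2⟩ := h
  have := c.fg
  refine ⟨_, XD.exA c.add (IsNoetherian.noetherian B) (P := fun y g =>
    Q fun p => p.1.elim (bif p.2 then y else 1) fun i => g (i, p.2)) (h1.subst ?_),
    fun v g h => exists_congr fun y => and_congr_right fun _ =>
      h2 _ _ (reps_cons y h (a := 0) fun y => by simp)⟩
  rintro ⟨_ | i, _ | _⟩
  exacts [.const c.surj 1, .var _, .var _, .var _]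

theorem Ctx.exA (c : Ctx π T ι t) {P : A → (α → ℤ × A) → Prop}
    (h : TD π T ι fun v : Option α → ℤ × A => P (v none).2 fun i => v (some i)) :
    TD π T ι fun v => ∃ y, P y v :=
  (c.exM ⊤ h).of_iff (by simp)

theorem Ctx.mem (c : Ctx π T ι t) {e : (α → ℤ × A) → A} (he : MTm T e) (B : Submodule ℤ A) :
    TD π T ι fun v => e v ∈ B :=
  (c.exM B (P := fun y v => e v = y) (c.eq he.lift (.var none))).of_iff (by simp)

theorem Ctx.exN (c : Ctx π T ι t) {P : ℤ → (α → ℤ × A) → Prop}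
    (h : TD π T ι fun v : Option α → ℤ × A => P (v none).1 fun i => v (some i)) :
    TD π T ι fun v => ∃ k : ℕ, P k v := by
  obtain ⟨Q, h1, h2⟩ := h
  refine ⟨_, XD.exN t (P := fun x g =>
    Q fun p => p.1.elim (bif p.2 then ι 0 else x) fun i => g (i, p.2)) (h1.subst ?_),
    fun v g h => exists_congr fun k =>
      h2 _ _ (reps_cons 0 h (zpow_natCast t k ▸ rep_zpow c.act k))⟩
  rintro ⟨_ | i, _ | _⟩
  exacts [.var _, .const c.surj _, .var _, .var _]

theorem Ctx.exZ (c : Ctx π T ι t) {P : ℤ → (α → ℤ × A) → Prop}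
    (h : TD π T ι fun v : Option α → ℤ × A => P (v none).1 fun i => v (some i)) :
    TD π T ι fun v => ∃ k : ℤ, P k v := by
  obtain ⟨Q, h1, h2⟩ := h
  refine ⟨_, XD.exZ t (P := fun x g =>
    Q fun p => p.1.elim (bif p.2 then ι 0 else x) fun i => g (i, p.2)) (h1.subst ?_),
    fun v g h => exists_congr fun k => h2 _ _ (reps_cons 0 h (rep_zpow c.act k))⟩
  rintro ⟨_ | i, _ | _⟩
  exacts [.var _, .const c.surj _, .var _, .var _]

/-- A definable product on the multiples of `u`. -/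
structure Mul (π : FreeGroup (Fin n) →* G) (T : (Module.End ℤ A)ˣ) (ι : A → G) (u : A)
    (M : A → A → A → Prop) : Prop where
  inj : ∀ a b : ℤ, a • u = b • u → a = b
  td : ∀ ⦃α : Type⦄ ⦃a b c : (α → ℤ × A) → A⦄, MTm T a → MTm T b → MTm T c →
    TD π T ι fun v => M (a v) (b v) (c v)
  iff : ∀ a b c : ℤ, M (a • u) (b • u) (c • u) ↔ a * b = c

theorem Mul.poly (c : Ctx π T ι t) {u : A} {M : A → A → A → Prop} (hm : Mul π T ι u M)
    {γ : Type} {p : (γ → ℕ) → ℤ} (hp : IsPoly p) : ∃ Q : A → (γ → A) → Prop,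
      (∀ (e : ℤ) (x : γ → ℕ), Q (e • u) (fun i => x i • u) ↔ p x = e) ∧
      ∀ ⦃α : Type⦄ ⦃f : (α → ℤ × A) → A⦄ ⦃σ : (α → ℤ × A) → γ → A⦄, MTm T f →
        (∀ i, MTm T fun v => σ v i) → TD π T ι fun v => Q (f v) (σ v) := by
  induction hp with
  | proj i =>
    refine ⟨fun z y => y i = z, fun e x => ⟨fun h => hm.inj _ _ (by simpa using h), fun h => ?_⟩,
      fun _ _ _ hf hσ => c.eq (hσ i) hf⟩
    rw [← h]
    simp
  | const k =>
    exact ⟨fun z _ => k • u = z, fun e x => ⟨hm.inj _ _, fun h => by rw [← h]⟩,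
      fun _ _ _ hf _ => c.eq (.const _) hf⟩
  | sub _ _ h h' =>
    obtain ⟨Q, h1, h2⟩ := h
    obtain ⟨Q', h1', h2'⟩ := h'
    refine ⟨fun z y => ∃ b ∈ Submodule.span ℤ {u}, Q (z + b) y ∧ Q' b y, fun e x => ?_,
      fun _ _ _ hf hσ => c.exM _ ((h2 (hf.lift.add (.var none)) fun i => (hσ i).lift).and
        (h2' (.var none) fun i => (hσ i).lift))⟩
    simp only [Submodule.mem_span_singleton, exists_exists_eq_and, ← add_smul, h1, h1',
      exists_eq_right', sub_eq_iff_eq_add]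
  | mul _ _ h h' =>
    obtain ⟨Q, h1, h2⟩ := h
    obtain ⟨Q', h1', h2'⟩ := h'
    refine ⟨fun z y => ∃ a ∈ Submodule.span ℤ {u}, ∃ b ∈ Submodule.span ℤ {u},
      Q a y ∧ Q' b y ∧ M a b z, fun e x => ?_,
      fun _ _ _ hf hσ => c.exM _ (c.exM _ ((h2 (.var (some none))
        fun i => (hσ i).lift.lift).and ((h2' (.var none) fun i => (hσ i).lift.lift).and
          (hm.td (.var (some none)) (.var none) hf.lift.lift))))⟩
    simp only [Submodule.mem_span_singleton, exists_exists_eq_and, h1, h1', hm.iff,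
      exists_and_left, exists_eq_left']

theorem Mul.undecidable (c : Ctx π T ι t) {u : A} {M : A → A → A → Prop} (hm : Mul π T ι u M) :
    ∃ (k : ℕ) (g : Fin k → G), ¬ ComputablePred (XP π g) := by
  obtain ⟨S, ⟨β, p, hp⟩, hS⟩ := Shared.DPRM.exists_undecidable_dioph
  obtain ⟨Q, h1, h2⟩ := hm.poly c p.isPoly
  obtain ⟨R, h3, h4⟩ := h2 (f := fun _ => (0 : ℤ) • u)
    (σ := fun (v : Unit ⊕ β → ℤ × A) i => (v i).2) (.const _) fun i => .var i
  obtain ⟨k, g, h5⟩ := (XD.exs (fun _ : β => ι u) (h3.subst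
    (σ := fun (v : Unit ⊕ β → G) p => bif p.2 then v p.1 else 1) (by
      rintro ⟨i, _ | _⟩
      exacts [.const c.surj 1, .var i]))).computable c.surj (ι u)
  refine ⟨k, g, fun h => hS ((h5 h).of_eq fun m => ?_)⟩
  refine Iff.trans (exists_congr fun x => ?_) (hp fun _ => m).symm
  refine (h4 (fun i => (0, Sum.elim (fun _ => m) x i • u)) _ ?_).trans (h1 0 _)
  rintro (i | i)
  · exact ⟨fun y => by simp, (c.nsmul _ _).symm⟩
  · exact ⟨fun y => by simp, (c.nsmul _ _).symm⟩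

end Pool.Agent.Lib.MP_db697d_lc.Exp
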