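import Pool.Agent.Lib.MP_db697d_lc.Group

/-!
Relations definable by systems of equations whose unknowns are powers of fixed elements.
-/

namespace Pool.Agent.Lib.MP_db697d_lc.Exp

variable {G : Type} [Group G] {n : ℕ} (π : FreeGroup (Fin n) →* G) {α β : Type}

/-- Projections of solution sets along unknowns that are powers of fixed elements. -/
def XD (P : (α → G) → Prop) : Prop :=
  ∃ (β : Type) (b : β → G) (Q : (α ⊕ β → G) → Prop), Cj π Q ∧
    ∀ v, P v ↔ ∃ x : β → ℕ, Q (Sum.elim v fun j => b j ^ x j)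

/-- Solvability of a system in powers of the elements `g j`. -/
def XP {k : ℕ} (g : Fin k → G) (S : List (List ((Fin n ⊕ Fin k) × Bool))) : Prop :=
  ∃ x : Fin k → ℕ, ∀ w ∈ S, FreeGroup.lift (Sum.elim (fun i => π (FreeGroup.of i))
    fun j => g j ^ x j) (FreeGroup.mk w) = 1

variable {π}

theorem XD.of_iff {P Q : (α → G) → Prop} (h : XD π P) (e : ∀ v, P v ↔ Q v) : XD π Q :=
  (funext fun v => propext (e v) : P = Q) ▸ h

theorem XD.eq {f g : (α → G) → G} (hf : Wd π f) (hg : Wd π g) : XD π fun v => f v = g v := by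
  obtain ⟨w, h⟩ := (hf.mul hg.inv).subst (β := α ⊕ Unit) (σ := fun v i => v (.inl i))
    fun i => .var _
  exact ⟨Unit, 1, fun v => ev π v w = 1, ⟨[w], by simp⟩, fun v => by simp [h, mul_inv_eq_one]⟩

theorem XD.and {P Q : (α → G) → Prop} : XD π P → XD π Q → XD π fun v => P v ∧ Q v
  | ⟨β, b, R, h1, h2⟩, ⟨β', b', R', h1', h2'⟩ =>
    ⟨β ⊕ β', Sum.elim b b', _, (h1.re (Sum.map id .inl)).and (h1'.re (Sum.map id .inr)),
      fun v => by
      simp only [h2, h2']
      constructor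
      · rintro ⟨⟨s, h⟩, s', h'⟩
        refine ⟨Sum.elim s s', ?_, ?_⟩
        · convert h with (_ | _) <;> rfl
        · convert h' with (_ | _) <;> rfl
      · rintro ⟨s, h, h'⟩
        refine ⟨⟨s ∘ .inl, ?_⟩, s ∘ .inr, ?_⟩
        · convert h with (_ | _) <;> rfl
        · convert h' with (_ | _) <;> rfl⟩

theorem XD.subst {P : (α → G) → Prop} {σ : (β → G) → α → G} (hσ : ∀ i, Wd π fun v => σ v i) :
    XD π P → XD π fun v => P (σ v)
  | ⟨γ, b, _, h1, h2⟩ => ⟨γ, b, _,
      h1.subst (σ := fun v => Sum.elim (σ fun j => v (.inl j)) fun j => v (.inr j))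
        fun j => j.rec (fun j => (hσ j).subst fun _ => .var _) fun _ => .var _, fun _ => h2 _⟩

theorem XD.exs {γ : Type} (c : γ → G) {P : (α ⊕ γ → G) → Prop} :
    XD π P → XD π fun v => ∃ x : γ → ℕ, P (Sum.elim v fun j => c j ^ x j)
  | ⟨β, b, R, h1, h2⟩ => ⟨γ ⊕ β, Sum.elim c b, _,
      h1.re (Sum.elim (Sum.map id .inl) fun j => .inr (.inr j)), fun v => by
      simp only [h2]
      constructor
      · rintro ⟨x, s, h⟩
        refine ⟨Sum.elim x s, ?_⟩
        convert h with ((_ | _) | _) <;> rfl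
      · rintro ⟨s, h⟩
        refine ⟨s ∘ .inl, s ∘ .inr, ?_⟩
        convert h with ((_ | _) | _) <;> rfl⟩

theorem XD.exN (c : G) {P : G → (α → G) → Prop}
    (h : XD π fun v : Option α → G => P (v none) fun i => v (some i)) :
    XD π fun v => ∃ x : ℕ, P (c ^ x) v :=
  (XD.exs (fun _ : Unit => c) (h.subst
    (σ := fun (v : α ⊕ Unit → G) (o : Option α) => v (o.elim (Sum.inr ()) Sum.inl))
      fun _ => .var _)).of_iff
    fun _ => ⟨fun ⟨x, h⟩ => ⟨x (), h⟩, fun ⟨x, h⟩ => ⟨fun _ => x, h⟩⟩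

theorem XD.exZ (c : G) {P : G → (α → G) → Prop}
    (h : XD π fun v : Option α → G => P (v none) fun i => v (some i)) :
    XD π fun v => ∃ x : ℤ, P (c ^ x) v := by
  have : XD π fun v => ∃ x : ℕ, ∃ y : ℕ, P (c ^ x * (c ^ y)⁻¹) v :=
    XD.exN c (P := fun a v => ∃ y : ℕ, P (a * (c ^ y)⁻¹) v) (XD.exN c
      (P := fun b (v : Option α → G) => P (v none * b⁻¹) fun i => v (some i))
      (h.subst (σ := fun (v : Option (Option α) → G) o =>
        o.elim (v (some none) * (v none)⁻¹) fun i => v (some (some i)))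
        fun o => o.rec ((Wd.var _).mul (Wd.var _).inv) fun _ => .var _))
  refine this.of_iff fun v => ⟨fun ⟨x, y, h⟩ => ⟨x - y, by simpa [zpow_sub] using h⟩,
    fun ⟨x, h⟩ => ⟨x.toNat, (-x).toNat, ?_⟩⟩
  rwa [← zpow_natCast, ← zpow_natCast, ← zpow_sub, Int.toNat_sub_toNat_neg]

theorem XD.exA {A : Type} [AddCommGroup A] {ι : A → G} (hι : ∀ x y, ι (x + y) = ι x * ι y)
    {B : Submodule ℤ A} (hB : B.FG) {P : G → (α → G) → Prop}
    (h : XD π fun v : Option α → G => P (v none) fun i => v (some i)) :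
    XD π fun v => ∃ y ∈ B, P (ι y) v := by
  classical
  let f : Multiplicative A →* G := MonoidHom.mk' (fun z => ι z.toAdd) fun _ _ => hι _ _
  have h0 : ι 0 = 1 := f.map_one
  have hz : ∀ (k : ℤ) a, ι (k • a) = ι a ^ k := fun k a => f.map_zpow (.ofAdd a) k
  obtain ⟨s, rfl⟩ := hB
  induction s using Finset.induction_on generalizing α with
  | empty =>
    exact (h.subst (σ := fun (v : α → G) o => o.elim 1 v)
      fun o => o.rec ⟨1, fun _ => rfl⟩ fun _ => .var _).of_iff fun v => by simp [h0]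
  | insert a s _ ih =>
    have : XD π fun v => ∃ k : ℤ, ∃ y ∈ Submodule.span ℤ (s : Set A), P (ι a ^ k * ι y) v :=
      XD.exZ (ι a) (P := fun c v => ∃ y ∈ Submodule.span ℤ (s : Set A), P (c * ι y) v) (ih
        (P := fun b (v : Option α → G) => P (v none * b) fun i => v (some i))
        (h.subst (σ := fun (v : Option (Option α) → G) o =>
          o.elim (v (some none) * v none) fun i => v (some (some i)))
          fun o => o.rec ((Wd.var _).mul (Wd.var _)) fun _ => .var _))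
    refine this.of_iff fun v => ?_
    simp only [Finset.coe_insert, Submodule.mem_span_insert, ← hz, ← hι]
    exact ⟨fun ⟨k, y, h1, h2⟩ => ⟨_, ⟨k, y, h1, rfl⟩, h2⟩,
      fun ⟨_, ⟨k, y, h1, e⟩, h2⟩ => ⟨k, y, h1, e ▸ h2⟩⟩

theorem exists_supp {X : Type} (w : FreeGroup X) : ∃ F : Finset X, ∀ f f' : X → G,
    (∀ i ∈ F, f i = f' i) → FreeGroup.lift f w = FreeGroup.lift f' w := by
  classical
  induction w using FreeGroup.induction_on with
  | C1 => exact ⟨∅, by simp⟩
  | of x => exact ⟨{x}, by simp⟩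
  | inv_of x ih => exact ⟨{x}, by simp⟩
  | mul x y hx hy =>
    obtain ⟨F, hF⟩ := hx
    obtain ⟨F', hF'⟩ := hy
    exact ⟨F ∪ F', fun f f' h => by
      rw [map_mul, map_mul, hF f f' fun i hi => h i (Finset.mem_union_left _ hi),
        hF' f f' fun i hi => h i (Finset.mem_union_right _ hi)]⟩

theorem Cj_supp {Q : (α → G) → Prop} (h : Cj π Q) :
    ∃ F : Finset α, ∀ v v', (∀ i ∈ F, v i = v' i) → Q v → Q v' := by
  classical
  obtain ⟨S, hS⟩ := h
  choose F hF using exists_supp (G := G) (X := Fin n ⊕ α)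
  refine ⟨(S.toFinset.biUnion F).preimage .inr Sum.inr_injective.injOn, fun v v' h h' => ?_⟩
  rw [hS] at h' ⊢
  intro w hw
  rw [← h' w hw]
  refine hF w _ _ ?_
  rintro (i | i) hi
  · rfl
  · exact (h i (Finset.mem_preimage.2 (Finset.mem_biUnion.2 ⟨w, List.mem_toFinset.2 hw, hi⟩))).symm

theorem XD.computable (hπ : Function.Surjective π) {P : (Unit → G) → Prop} (h : XD π P) (t : G) :
    ∃ (k : ℕ) (g : Fin k → G), ComputablePred (XP π g) →
      ComputablePred fun m : ℕ => P fun _ => t ^ m := by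
  classical
  obtain ⟨β, b, Q, h1, h2⟩ := h
  obtain ⟨F, hF⟩ := Cj_supp h1
  let F' := F.preimage .inr Sum.inr_injective.injOn
  let e := F'.equivFin
  let σ : (Fin (F'.card + 1) → G) → Unit ⊕ β → G := fun u =>
    Sum.elim (fun _ => u 0) fun j => if h : j ∈ F' then u (e ⟨j, h⟩).succ else 1
  obtain ⟨S, hS⟩ := h1.subst (σ := σ) (by
    rintro (_ | j)
    · exact .var 0
    · by_cases h : j ∈ F'
      · simpa [σ, h] using Wd.var (π := π) (e ⟨j, h⟩).succ
      · simpa [σ, h] using Wd.const (α := Fin (F'.card + 1)) hπ 1)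
  refine ⟨F'.card + 1, Fin.cons t fun i => b (e.symm i), fun hD => ?_⟩
  obtain ⟨W, hW⟩ := Wd.const (α := Fin (F'.card + 1)) hπ t
  have h4 : Primrec fun k : ℕ =>
      (fun l => W.toWord ++ l)^[k] [(Sum.inr 0, false)] :: S.map FreeGroup.toWord :=
    Primrec.list_cons.comp (Primrec.nat_iterate Primrec.id (Primrec.const _)
      (Primrec.list_append.comp (Primrec.const _) Primrec.snd).to₂) (Primrec.const _)
  refine (Computable.computablePred (hD.decide.comp h4.to_comp)).of_eq fun k => ?_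
  have h5 : ∀ s : Fin (F'.card + 1) → G, ev π s (FreeGroup.mk ((fun l => W.toWord ++ l)^[k]
      [(Sum.inr 0, false)])) = t ^ k * (s 0)⁻¹ := fun s => by
    induction k with
    | zero => simp [ev]
    | succ k ih =>
      rw [Function.iterate_succ_apply', ← FreeGroup.mul_mk, map_mul, ih, FreeGroup.mk_toWord, hW,
        pow_succ', mul_assoc]
  have h6 : ∀ s : Fin (F'.card + 1) → G, (∀ w ∈ (fun l => W.toWord ++ l)^[k]
      [(Sum.inr 0, false)] :: S.map FreeGroup.toWord, ev π s (FreeGroup.mk w) = 1) ↔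
      t ^ k = s 0 ∧ Q (σ s) := fun s => by
    simp only [List.forall_mem_cons, h5, List.forall_mem_map, FreeGroup.mk_toWord, ← hS,
      mul_inv_eq_one]
  refine (exists_congr fun x => h6 _).trans (Iff.trans ⟨?_, ?_⟩ (h2 _).symm)
  · rintro ⟨x, h, h'⟩
    refine ⟨fun j => if h : j ∈ F' then x (e ⟨j, h⟩).succ else 0, ?_⟩
    refine (congrArg Q (funext ?_)).mp h'
    rintro (_ | j)
    · exact h.symm
    · by_cases hj : j ∈ F' <;> simp [σ, hj]
  · rintro ⟨x, h⟩
    refine ⟨Fin.cons k fun i => x (e.symm i), by simp, hF _ _ ?_ h⟩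
    rintro (_ | j) hj
    · simp [σ]
    · have : j ∈ F' := Finset.mem_preimage.2 hj
      simp [σ, this]

end Pool.Agent.Lib.MP_db697d_lc.Exp
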